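import Pool.Agent.Helper162_aut.Growth

namespace Pool.Agent.Results.MP_34afd1_lc.NotAutomatic

open Pool.Agent.Helper162_aut

/-- The structure `⟨ℕ_{>0}; +, x·2^y, ≤, 1⟩` is not automatic: it has no automatic presentation
over any finite alphabet. -/
theorem result :
    IsEmpty (AutomaticPresentation ℕ+ (fun x y => x + y) (fun x y => x * 2 ^ (y : ℕ))
      (fun x y => x ≤ y) 1) :=
  not_automatic

end Pool.Agent.Results.MP_34afd1_lc.NotAutomatic
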